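import Mathlib
import Pool.Agent.Helper50.PR.Defs
import Pool.Agent.Helper50.PR.Main
import Pool.Agent.Helper50.PR.Sound
import Pool.Agent.Helper50.PR.Sound2
import Pool.Agent.Helper50.PR.Complete

/-!
# A prime-representing polynomial exists (the polynomial in 8 variables of helper50)
-/

namespace Pool.Agent.Helper33.DF

open Pool.Agent.Helper50.PR in
/-- There is a prime-representing polynomial. -/
theorem exists_prime_representing : ∃ P : MvPolynomial (Fin 8) ℤ,
    {z : ℤ | 0 < z ∧ ∃ a : Fin 8 → ℕ, MvPolynomial.eval (fun i => (a i : ℤ)) P = z} =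
      {z : ℤ | ∃ p : ℕ, p.Prime ∧ z = (p : ℤ)} := by
  refine ⟨vP (fun i => MvPolynomial.X i), ?_⟩
  have hev : ∀ a : Fin 8 → ℕ, MvPolynomial.eval (fun i => (a i : ℤ))
      (vP (fun i => (MvPolynomial.X i : MvPolynomial (Fin 8) ℤ))) = vP (fun i => (a i : ℤ)) := by
    intro a
    rw [map_vP]
    simp
  ext z
  simp only [Set.mem_ofPred_eq]
  constructor
  · rintro ⟨hz, a, ha⟩
    rw [hev] at ha
    unfold vP at ha
    by_cases ht : a 0 = 0
    · refine ⟨2, Nat.prime_two, ?_⟩
      rw [← ha]
      simp [vn, ht]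
    · have ht1 : 1 ≤ a 0 := by omega
      by_cases hM : vM (fun i => (a i : ℤ)) = 0
      · refine ⟨a 0 + 2, core_sound a ht1 hM, ?_⟩
        rw [← ha, hM]
        simp [vn]
      · exfalso
        have h1 : 1 ≤ ((a 0 : ℤ) * vM (fun i => (a i : ℤ))) ^ 2 := by
          have h0 : ((a 0 : ℤ) * vM (fun i => (a i : ℤ))) ≠ 0 :=
            mul_ne_zero (by exact_mod_cast ht) hM
          have := sq_pos_of_ne_zero h0
          linarith
        have h2 : 0 ≤ vn (fun i => (a i : ℤ)) := by
          unfold vn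
          positivity
        have h3 : vn (fun i => (a i : ℤ)) *
            (1 - ((a 0 : ℤ) * vM (fun i => (a i : ℤ))) ^ 2) ≤ 0 :=
          mul_nonpos_of_nonneg_of_nonpos h2 (by linarith)
        linarith
  · rintro ⟨p, hp, rfl⟩
    refine ⟨by exact_mod_cast hp.pos, ?_⟩
    rcases Nat.lt_or_ge p 3 with h | h
    · have hp2 : p = 2 := by
        have := hp.two_le
        omega
      refine ⟨fun _ => 0, ?_⟩
      rw [hev, hp2]
      simp [vP, vn]
    · obtain ⟨u, hu, hM⟩ := core_complete hp h
      refine ⟨u, ?_⟩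
      rw [hev]
      unfold vP
      rw [hM]
      have : ((u 0 : ℤ) + 2) = p := by exact_mod_cast hu
      simp [vn, this]

end Pool.Agent.Helper33.DF
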