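import Mathlib

/-!
# Every positive range of an integer polynomial is the positive range of one of degree at most four

`P = P₊ - P₋` is computed by two arithmetic expressions. All steps of the computation are enforced by
quadratic equations of the following kind: if the absolute values of all the left sides are less than
`z - 3`, where `z - 3` is the value of `P`, then all of them vanish.
-/

set_option autoImplicit false

namespace Pool.Agent.Helper33.DF

open MvPolynomial

/-- arithmetic expressions in `n` variables -/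
inductive Ex (n : ℕ) : Type
  | var (i : Fin n) : Ex n
  | zero : Ex n
  | one : Ex n
  | add (s t : Ex n) : Ex n
  | mul (s t : Ex n) : Ex n
  deriving DecidableEq

variable {n : ℕ}

/-- the value of an expression -/
def Ex.val (a : Fin n → ℕ) : Ex n → ℕ
  | .var i => a i
  | .zero => 0
  | .one => 1
  | .add s t => Ex.val a s + Ex.val a t
  | .mul s t => Ex.val a s * Ex.val a t

/-- the subexpressions -/
def Ex.sub : Ex n → Finset (Ex n)
  | .var i => {.var i}
  | .zero => {.zero}
  | .one => {.one}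
  | .add s t => insert (.add s t) (Ex.sub s ∪ Ex.sub t)
  | .mul s t => insert (.mul s t) (Ex.sub s ∪ Ex.sub t)

theorem Ex.mem_sub (e : Ex n) : e ∈ e.sub := by
  cases e <;> simp [Ex.sub]

/-- a numeral -/
def Ex.num : ℕ → Ex n
  | 0 => .zero
  | m + 1 => .add (Ex.num m) .one

theorem Ex.val_num (a : Fin n → ℕ) (m : ℕ) : (Ex.num m : Ex n).val a = m := by
  induction m with
  | zero => rfl
  | succ m ih => simp [Ex.num, Ex.val, ih]

/-- every integer polynomial is the difference of two expressions -/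
theorem exists_ex (P : MvPolynomial (Fin n) ℤ) : ∃ e f : Ex n, ∀ a : Fin n → ℕ,
    eval (fun i => (a i : ℤ)) P = (e.val a : ℤ) - (f.val a : ℤ) := by
  induction P using MvPolynomial.induction_on with
  | C c =>
    refine ⟨Ex.num c.toNat, Ex.num (-c).toNat, fun a => ?_⟩
    rw [Ex.val_num, Ex.val_num, eval_C]
    omega
  | add p q hp hq =>
    obtain ⟨e, f, h⟩ := hp
    obtain ⟨e', f', h'⟩ := hq
    refine ⟨.add e e', .add f f', fun a => ?_⟩
    rw [map_add, h, h']
    simp only [Ex.val]
    push_cast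
    ring
  | mul_X p i hp =>
    obtain ⟨e, f, h⟩ := hp
    refine ⟨.mul e (.var i), .mul f (.var i), fun a => ?_⟩
    rw [map_mul, h, eval_X]
    simp only [Ex.val]
    push_cast
    ring

/-- the variables: `u t`, `v t` (which is to be `z * u t`), `Z` and `Y` -/
abbrev J (n : ℕ) : Type := Ex n ⊕ Ex n ⊕ Bool

section polys

/-- the value of `t` -/
noncomputable def pu (t : Ex n) : MvPolynomial (J n) ℤ := X (Sum.inl t)

/-- `z` times the value of `t` -/
noncomputable def pv (t : Ex n) : MvPolynomial (J n) ℤ := X (Sum.inr (Sum.inl t))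

/-- the square of `z` -/
noncomputable def pZ : MvPolynomial (J n) ℤ := X (Sum.inr (Sum.inr false))

/-- the cube of `z` -/
noncomputable def pY : MvPolynomial (J n) ℤ := X (Sum.inr (Sum.inr true))

/-- the value of the polynomial -/
noncomputable def pl (e f : Ex n) : MvPolynomial (J n) ℤ := pu e - pu f

/-- the large number `z` -/
noncomputable def pz (e f : Ex n) : MvPolynomial (J n) ℤ := pl e f + C 3

noncomputable def qA (e f : Ex n) : MvPolynomial (J n) ℤ := pZ - pz e f ^ 2
noncomputable def qB (e f : Ex n) : MvPolynomial (J n) ℤ := pY - pz e f * pZ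
noncomputable def qC (e f : Ex n) : MvPolynomial (J n) ℤ := pY * pz e f - pZ ^ 2
noncomputable def qD (e f t : Ex n) : MvPolynomial (J n) ℤ := pv t - pz e f * pu t
noncomputable def qE (e f t : Ex n) : MvPolynomial (J n) ℤ := pZ * pu t - pz e f * pv t

/-- the step of the computation at `t` -/
noncomputable def qF (e f : Ex n) : Ex n → MvPolynomial (J n) ℤ
  | .var _ => 0
  | .zero => pv .zero
  | .one => pv .one - pz e f
  | .add s t => pv (.add s t) - pv s - pv t
  | .mul s t => pv (.mul s t) - pv s * pu t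

/-- the polynomial of degree four -/
noncomputable def pR (e f : Ex n) : MvPolynomial (J n) ℤ :=
  pl e f - (qA e f ^ 2 + qB e f ^ 2 + qC e f ^ 2 +
    ∑ t ∈ e.sub ∪ f.sub, (qD e f t ^ 2 + qE e f t ^ 2 + qF e f t ^ 2))

end polys

section degrees

theorem deg_sub {σ : Type*} {p q : MvPolynomial σ ℤ} {d : ℕ} (hp : p.totalDegree ≤ d)
    (hq : q.totalDegree ≤ d) : (p - q).totalDegree ≤ d :=
  (totalDegree_sub p q).trans (max_le hp hq)

theorem deg_add {σ : Type*} {p q : MvPolynomial σ ℤ} {d : ℕ} (hp : p.totalDegree ≤ d)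
    (hq : q.totalDegree ≤ d) : (p + q).totalDegree ≤ d :=
  (totalDegree_add p q).trans (max_le hp hq)

theorem deg_mul {σ : Type*} {p q : MvPolynomial σ ℤ} {d d' : ℕ} (hp : p.totalDegree ≤ d)
    (hq : q.totalDegree ≤ d') : (p * q).totalDegree ≤ d + d' :=
  (totalDegree_mul p q).trans (add_le_add hp hq)

theorem deg_sq {σ : Type*} {p : MvPolynomial σ ℤ} {d : ℕ} (hp : p.totalDegree ≤ d) :
    (p ^ 2).totalDegree ≤ 2 * d :=
  (totalDegree_pow p 2).trans (Nat.mul_le_mul_left 2 hp)

theorem deg_pu (t : Ex n) : (pu t).totalDegree ≤ 1 := by simp [pu]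
theorem deg_pv (t : Ex n) : (pv t).totalDegree ≤ 1 := by simp [pv]
theorem deg_pZ : (pZ : MvPolynomial (J n) ℤ).totalDegree ≤ 1 := by simp [pZ]
theorem deg_pY : (pY : MvPolynomial (J n) ℤ).totalDegree ≤ 1 := by simp [pY]

theorem deg_pl (e f : Ex n) : (pl e f).totalDegree ≤ 1 := deg_sub (deg_pu e) (deg_pu f)

theorem deg_pz (e f : Ex n) : (pz e f).totalDegree ≤ 1 :=
  deg_add (deg_pl e f) (by rw [totalDegree_C]; exact zero_le_one)

theorem deg_qA (e f : Ex n) : (qA e f).totalDegree ≤ 2 :=
  deg_sub (deg_pZ.trans one_le_two) (deg_sq (deg_pz e f))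

theorem deg_qB (e f : Ex n) : (qB e f).totalDegree ≤ 2 :=
  deg_sub (deg_pY.trans one_le_two) (deg_mul (deg_pz e f) deg_pZ)

theorem deg_qC (e f : Ex n) : (qC e f).totalDegree ≤ 2 :=
  deg_sub (deg_mul deg_pY (deg_pz e f)) (deg_sq deg_pZ)

theorem deg_qD (e f t : Ex n) : (qD e f t).totalDegree ≤ 2 :=
  deg_sub ((deg_pv t).trans one_le_two) (deg_mul (deg_pz e f) (deg_pu t))

theorem deg_qE (e f t : Ex n) : (qE e f t).totalDegree ≤ 2 :=
  deg_sub (deg_mul deg_pZ (deg_pu t)) (deg_mul (deg_pz e f) (deg_pv t))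

theorem deg_qF (e f t : Ex n) : (qF e f t).totalDegree ≤ 2 := by
  cases t with
  | var i => simp [qF]
  | zero => exact (deg_pv _).trans one_le_two
  | one => exact deg_sub ((deg_pv _).trans one_le_two) ((deg_pz e f).trans one_le_two)
  | add s t =>
    exact deg_sub (deg_sub ((deg_pv _).trans one_le_two) ((deg_pv _).trans one_le_two))
      ((deg_pv _).trans one_le_two)
  | mul s t => exact deg_sub ((deg_pv _).trans one_le_two) (deg_mul (deg_pv s) (deg_pu t))

theorem deg_pR (e f : Ex n) : (pR e f).totalDegree ≤ 4 := by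
  have h2 : ∀ {p : MvPolynomial (J n) ℤ}, p.totalDegree ≤ 2 → (p ^ 2).totalDegree ≤ 4 :=
    fun h => deg_sq h
  refine deg_sub ((deg_pl e f).trans (by norm_num)) (deg_add (deg_add (deg_add
    (h2 (deg_qA e f)) (h2 (deg_qB e f))) (h2 (deg_qC e f))) ?_)
  refine totalDegree_finsetSum_le fun t _ => ?_
  exact deg_add (deg_add (h2 (deg_qD e f t)) (h2 (deg_qE e f t))) (h2 (deg_qF e f t))

end degrees

section complete

/-- the correct values of the variables -/
def asg (a : Fin n → ℕ) (z : ℕ) : J n → ℕ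
  | Sum.inl t => t.val a
  | Sum.inr (Sum.inl t) => z * t.val a
  | Sum.inr (Sum.inr false) => z ^ 2
  | Sum.inr (Sum.inr true) => z ^ 3

theorem complete (e f : Ex n) (a : Fin n → ℕ) {x : ℤ} (hx : 0 < x)
    (h : (e.val a : ℤ) - (f.val a : ℤ) = x) :
    eval (fun j => ((asg a (x + 3).toNat j : ℕ) : ℤ)) (pR e f) = x := by
  obtain ⟨z, hz⟩ : ∃ z : ℕ, z = (x + 3).toNat := ⟨_, rfl⟩
  have hzx : (z : ℤ) = x + 3 := by omega
  rw [← hz]
  set w : J n → ℤ := fun j => ((asg a z j : ℕ) : ℤ) with hw
  have eu : ∀ t, eval w (pu t) = (t.val a : ℤ) := fun t => by simp [pu, hw, asg]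
  have ev : ∀ t, eval w (pv t) = (z : ℤ) * (t.val a : ℤ) := fun t => by simp [pv, hw, asg]
  have eZ : eval w pZ = (z : ℤ) ^ 2 := by simp [pZ, hw, asg]
  have eY : eval w pY = (z : ℤ) ^ 3 := by simp [pY, hw, asg]
  have el : eval w (pl e f) = x := by rw [pl, map_sub, eu, eu, h]
  have ez : eval w (pz e f) = (z : ℤ) := by rw [pz, map_add, el, eval_C, hzx]
  have hA : eval w (qA e f) = 0 := by rw [qA, map_sub, map_pow, eZ, ez, sub_self]
  have hB : eval w (qB e f) = 0 := by rw [qB, map_sub, map_mul, eY, ez, eZ]; ring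
  have hC : eval w (qC e f) = 0 := by rw [qC, map_sub, map_mul, map_pow, eY, ez, eZ]; ring
  have hD : ∀ t, eval w (qD e f t) = 0 := fun t => by
    rw [qD, map_sub, map_mul, ev, ez, eu, sub_self]
  have hE : ∀ t, eval w (qE e f t) = 0 := fun t => by
    rw [qE, map_sub, map_mul, map_mul, ev, ez, eu, eZ]; ring
  have hF : ∀ t, eval w (qF e f t) = 0 := fun t => by
    cases t with
    | var i => simp [qF]
    | zero => rw [qF, ev]; simp [Ex.val]
    | one => rw [qF, map_sub, ev, ez]; simp [Ex.val]
    | add s t =>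
      rw [qF, map_sub, map_sub, ev, ev, ev]
      simp only [Ex.val]
      push_cast
      ring
    | mul s t =>
      rw [qF, map_sub, map_mul, ev, ev, eu]
      simp only [Ex.val]
      push_cast
      ring
  have hs : eval w (pR e f) = eval w (pl e f) - (eval w (qA e f) ^ 2 + eval w (qB e f) ^ 2 +
      eval w (qC e f) ^ 2 + ∑ t ∈ e.sub ∪ f.sub, (eval w (qD e f t) ^ 2 + eval w (qE e f t) ^ 2 +
        eval w (qF e f t) ^ 2)) := by
    rw [pR]
    simp only [map_sub, map_add, map_pow, map_sum]
  rw [hs, el, hA, hB, hC]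
  simp [hD, hE, hF]

end complete

section sound

/-- a multiple of `z` of absolute value less than `z` is zero -/
theorem mul_small {z k q : ℤ} (h : q = z * k) (h1 : |q| < z) : k = 0 := by
  by_contra hk
  have h2 : 1 ≤ |k| := Int.one_le_abs hk
  have h3 : 0 < z := lt_of_le_of_lt (abs_nonneg q) h1
  rw [h, abs_mul, abs_of_pos h3] at h1
  nlinarith

/-- the square of `z` is enforced -/
theorem square_small {z Z A B : ℤ} (hz : 4 ≤ z) (hA : A = Z - z ^ 2) (hA' : |A| < z - 3)
    (hB' : |B| < z - 3) (hC' : |z * B - Z * A| < z - 3) : A = 0 ∧ B = 0 := by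
  have hA0 : A = 0 := by
    by_contra hne
    have h1 : 1 ≤ |A| := Int.one_le_abs hne
    have hZ : Z = z ^ 2 + A := by rw [hA]; ring
    have h2 : z ^ 2 - (z - 3) < Z := by
      have := (abs_lt.1 hA').1
      rw [hZ]; linarith
    have hZ0 : 0 < Z := by nlinarith
    have h3 : Z ≤ |Z * A| := by
      rw [abs_mul, abs_of_pos hZ0]
      nlinarith
    have h4 : |Z * A| ≤ |z * B| + |z * B - Z * A| := by
      have h5 : Z * A = z * B - (z * B - Z * A) := by ring
      calc |Z * A| = |z * B - (z * B - Z * A)| := by rw [← h5]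
        _ ≤ |z * B| + |z * B - Z * A| := abs_sub _ _
    have h6 : |z * B| ≤ z * (z - 3) := by
      rw [abs_mul, abs_of_pos (by linarith : 0 < z)]
      nlinarith
    nlinarith
  refine ⟨hA0, ?_⟩
  rw [hA0, mul_zero, sub_zero] at hC'
  exact mul_small rfl (hC'.trans (by linarith))

theorem sound (e f : Ex n) (w : J n → ℕ) (h : 0 < eval (fun j => (w j : ℤ)) (pR e f)) :
    eval (fun j => (w j : ℤ)) (pR e f) =
      (e.val (fun i => w (Sum.inl (.var i))) : ℤ) - (f.val (fun i => w (Sum.inl (.var i))) : ℤ) := by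
  set a : Fin n → ℕ := fun i => w (Sum.inl (.var i)) with ha
  set W : J n → ℤ := fun j => (w j : ℤ) with hW
  have hs : eval W (pR e f) = eval W (pl e f) - (eval W (qA e f) ^ 2 + eval W (qB e f) ^ 2 +
      eval W (qC e f) ^ 2 + ∑ t ∈ e.sub ∪ f.sub, (eval W (qD e f t) ^ 2 + eval W (qE e f t) ^ 2 +
        eval W (qF e f t) ^ 2)) := by
    rw [pR]
    simp only [map_sub, map_add, map_pow, map_sum]
  obtain ⟨l, hl⟩ : ∃ l, l = eval W (pl e f) := ⟨_, rfl⟩
  obtain ⟨z, hz⟩ : ∃ z, z = eval W (pz e f) := ⟨_, rfl⟩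
  have hzl : z = l + 3 := by rw [hz, hl, pz, map_add, eval_C]
  set S : ℤ := ∑ t ∈ e.sub ∪ f.sub, (eval W (qD e f t) ^ 2 + eval W (qE e f t) ^ 2 +
        eval W (qF e f t) ^ 2) with hS
  have hS0 : ∀ t ∈ e.sub ∪ f.sub, eval W (qD e f t) ^ 2 + eval W (qE e f t) ^ 2 +
        eval W (qF e f t) ^ 2 ≤ S := fun t ht =>
    Finset.single_le_sum (f := fun t => eval W (qD e f t) ^ 2 + eval W (qE e f t) ^ 2 +
        eval W (qF e f t) ^ 2) (fun t _ => by positivity) ht
  have hSn : 0 ≤ S := Finset.sum_nonneg fun t _ => by positivity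
  have small : ∀ q : ℤ, q ^ 2 < l → |q| < z - 3 := fun q hq => by
    have h1 : |q| ≤ q ^ 2 := by
      rw [← sq_abs]
      rcases eq_or_ne q 0 with h0 | h0
      · simp [h0]
      · have := Int.one_le_abs h0
        nlinarith
    omega
  rw [hs, ← hl] at h
  have nA := sq_nonneg (eval W (qA e f))
  have nB := sq_nonneg (eval W (qB e f))
  have nC := sq_nonneg (eval W (qC e f))
  have hA := small (eval W (qA e f)) (by linarith)
  have hB := small (eval W (qB e f)) (by linarith)
  have hC := small (eval W (qC e f)) (by linarith)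
  have hz4 : 4 ≤ z := by
    have : 0 < l := by linarith
    omega
  have hAe : eval W (qA e f) = eval W pZ - z ^ 2 := by rw [qA, map_sub, map_pow, hz]
  have hBe : eval W (qB e f) = eval W pY - z * eval W pZ := by rw [qB, map_sub, map_mul, hz]
  have hCe : eval W (qC e f) = z * eval W (qB e f) - eval W pZ * eval W (qA e f) := by
    rw [hAe, hBe, qC, map_sub, map_mul, map_pow, ← hz]
    ring
  rw [hCe] at hC
  obtain ⟨hA0, hB0⟩ := square_small hz4 hAe hA hB hC
  have hZ : eval W pZ = z ^ 2 := by rw [hA0] at hAe; linarith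
  have hC0 : eval W (qC e f) = 0 := by rw [hCe, hA0, hB0]; ring
  -- the multiples of `z`
  have hDsmall : ∀ t ∈ e.sub ∪ f.sub, |eval W (qD e f t)| < z - 3 ∧
      |eval W (qE e f t)| < z - 3 ∧ |eval W (qF e f t)| < z - 3 := fun t ht => by
    have h1 := hS0 t ht
    have nD := sq_nonneg (eval W (qD e f t))
    have nE := sq_nonneg (eval W (qE e f t))
    have nF := sq_nonneg (eval W (qF e f t))
    refine ⟨small _ ?_, small _ ?_, small _ ?_⟩ <;> linarith
  have hD0 : ∀ t ∈ e.sub ∪ f.sub, eval W (qD e f t) = 0 := fun t ht => by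
    have h1 : eval W (qE e f t) = z * (-eval W (qD e f t)) := by
      rw [qE, qD, map_sub, map_sub, map_mul, map_mul, map_mul, hZ, ← hz]
      ring
    have h2 := mul_small h1 ((hDsmall t ht).2.1.trans (by linarith))
    linarith
  have hE0 : ∀ t ∈ e.sub ∪ f.sub, eval W (qE e f t) = 0 := fun t ht => by
    have h1 : eval W (qE e f t) = z * (-eval W (qD e f t)) := by
      rw [qE, qD, map_sub, map_sub, map_mul, map_mul, map_mul, hZ, ← hz]
      ring
    rw [h1, hD0 t ht]; ring
  have hv : ∀ t ∈ e.sub ∪ f.sub, eval W (pv t) = z * eval W (pu t) := fun t ht => by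
    have h1 := hD0 t ht
    rw [qD, map_sub, map_mul, ← hz] at h1
    linarith
  have eu : ∀ t, eval W (pu t) = (w (Sum.inl t) : ℤ) := fun t => by simp [pu, hW]
  have hFsmall : ∀ t ∈ e.sub ∪ f.sub, |eval W (qF e f t)| < z := fun t ht =>
    (hDsmall t ht).2.2.trans (by linarith)
  -- the values are correct
  have key : ∀ t : Ex n, t.sub ⊆ e.sub ∪ f.sub →
      eval W (pu t) = (t.val a : ℤ) ∧ ∀ s ∈ t.sub, eval W (qF e f s) = 0 := by
    intro t
    induction t with
    | var i =>
      intro _
      refine ⟨by rw [eu]; simp [Ex.val, ha], fun s hs => ?_⟩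
      rw [Ex.sub, Finset.mem_singleton] at hs
      rw [hs, qF, map_zero]
    | zero =>
      intro ht
      have hm := ht (Ex.mem_sub _)
      have h1 : eval W (qF e f .zero) = z * eval W (pu .zero) := by rw [qF, hv _ hm]
      have h2 := mul_small h1 (hFsmall _ hm)
      refine ⟨by rw [h2]; simp [Ex.val], fun s hs => ?_⟩
      rw [Ex.sub, Finset.mem_singleton] at hs
      rw [hs, h1, h2, mul_zero]
    | one =>
      intro ht
      have hm := ht (Ex.mem_sub _)
      have h1 : eval W (qF e f .one) = z * (eval W (pu .one) - 1) := by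
        rw [qF, map_sub, hv _ hm, ← hz]; ring
      have h2 := mul_small h1 (hFsmall _ hm)
      refine ⟨by simp only [Ex.val]; push_cast; linarith, fun s hs => ?_⟩
      rw [Ex.sub, Finset.mem_singleton] at hs
      rw [hs, h1, h2, mul_zero]
    | add s t hs ht =>
      intro hst
      have hm := hst (Ex.mem_sub _)
      have hss : s.sub ⊆ e.sub ∪ f.sub := fun x hx => hst (by
        rw [Ex.sub]
        exact Finset.mem_insert_of_mem (Finset.mem_union_left _ hx))
      have hts : t.sub ⊆ e.sub ∪ f.sub := fun x hx => hst (by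
        rw [Ex.sub]
        exact Finset.mem_insert_of_mem (Finset.mem_union_right _ hx))
      obtain ⟨es, fs⟩ := hs hss
      obtain ⟨et, ft⟩ := ht hts
      have h1 : eval W (qF e f (.add s t)) =
          z * (eval W (pu (.add s t)) - eval W (pu s) - eval W (pu t)) := by
        rw [qF, map_sub, map_sub, hv _ hm, hv _ (hss (Ex.mem_sub _)), hv _ (hts (Ex.mem_sub _))]
        ring
      have h2 := mul_small h1 (hFsmall _ hm)
      refine ⟨?_, fun x hx => ?_⟩
      · simp only [Ex.val]
        push_cast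
        rw [← es, ← et]
        linarith
      · rw [Ex.sub, Finset.mem_insert, Finset.mem_union] at hx
        rcases hx with hx | hx | hx
        · rw [hx, h1, h2, mul_zero]
        · exact fs x hx
        · exact ft x hx
    | mul s t hs ht =>
      intro hst
      have hm := hst (Ex.mem_sub _)
      have hss : s.sub ⊆ e.sub ∪ f.sub := fun x hx => hst (by
        rw [Ex.sub]
        exact Finset.mem_insert_of_mem (Finset.mem_union_left _ hx))
      have hts : t.sub ⊆ e.sub ∪ f.sub := fun x hx => hst (by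
        rw [Ex.sub]
        exact Finset.mem_insert_of_mem (Finset.mem_union_right _ hx))
      obtain ⟨es, fs⟩ := hs hss
      obtain ⟨et, ft⟩ := ht hts
      have h1 : eval W (qF e f (.mul s t)) =
          z * (eval W (pu (.mul s t)) - eval W (pu s) * eval W (pu t)) := by
        rw [qF, map_sub, map_mul, hv _ hm, hv _ (hss (Ex.mem_sub _))]
        ring
      have h2 := mul_small h1 (hFsmall _ hm)
      refine ⟨?_, fun x hx => ?_⟩
      · simp only [Ex.val]
        push_cast
        rw [← es, ← et]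
        linarith
      · rw [Ex.sub, Finset.mem_insert, Finset.mem_union] at hx
        rcases hx with hx | hx | hx
        · rw [hx, h1, h2, mul_zero]
        · exact fs x hx
        · exact ft x hx
  obtain ⟨ke, kfe⟩ := key e Finset.subset_union_left
  obtain ⟨kf, kff⟩ := key f Finset.subset_union_right
  have hF0 : ∀ t ∈ e.sub ∪ f.sub, eval W (qF e f t) = 0 := fun t ht => by
    rcases Finset.mem_union.1 ht with h1 | h1
    · exact kfe t h1
    · exact kff t h1
  have hS00 : S = 0 := Finset.sum_eq_zero fun t ht => by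
    rw [hD0 t ht, hE0 t ht, hF0 t ht]; ring
  rw [hs, hA0, hB0, hC0, hS00, pl, map_sub, ke, kf]
  ring

end sound

/-- a polynomial in any set of variables can be replaced by one in finitely many variables -/
theorem to_fin {σ : Type*} (R : MvPolynomial σ ℤ) : ∃ (m : ℕ) (Q : MvPolynomial (Fin m) ℤ),
    Q.totalDegree ≤ R.totalDegree ∧ ∀ x : ℤ,
      (∃ b : Fin m → ℕ, eval (fun i => (b i : ℤ)) Q = x) ↔
        ∃ w : σ → ℕ, eval (fun j => (w j : ℤ)) R = x := by
  obtain ⟨m, g, hg, Q, rfl⟩ := exists_fin_rename R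
  refine ⟨m, Q, ?_, fun x => ?_⟩
  · rcases isEmpty_or_nonempty (Fin m) with h | h
    · rw [eq_C_of_isEmpty Q, totalDegree_C]
      exact Nat.zero_le _
    · have h1 : rename (Function.invFun g) (rename g Q) = Q := by
        rw [rename_rename, Function.invFun_comp hg, rename_id]
        rfl
      calc Q.totalDegree = (rename (Function.invFun g) (rename g Q)).totalDegree := by rw [h1]
        _ ≤ _ := totalDegree_rename_le _ _
  · constructor
    · rintro ⟨b, hb⟩
      refine ⟨Function.extend g b 0, ?_⟩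
      rw [eval_rename]
      have h1 : (fun j => ((Function.extend g b 0 j : ℕ) : ℤ)) ∘ g = fun i => (b i : ℤ) := by
        funext i
        simp [hg.extend_apply]
      rw [h1, hb]
    · rintro ⟨w, hw⟩
      refine ⟨w ∘ g, ?_⟩
      rw [eval_rename] at hw
      exact hw

/-- **Degree four.** Every positive range of an integer polynomial at tuples of natural numbers is the
positive range of an integer polynomial of total degree at most four. -/
theorem degree_four (P : MvPolynomial (Fin n) ℤ) : ∃ (m : ℕ) (R : MvPolynomial (Fin m) ℤ),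
    R.totalDegree ≤ 4 ∧ ∀ x : ℤ, 0 < x →
      ((∃ b : Fin m → ℕ, eval (fun i => (b i : ℤ)) R = x) ↔
        ∃ a : Fin n → ℕ, eval (fun i => (a i : ℤ)) P = x) := by
  obtain ⟨e, f, h⟩ := exists_ex P
  obtain ⟨m, R, hR, h'⟩ := to_fin (pR e f)
  refine ⟨m, R, hR.trans (deg_pR e f), fun x hx => ?_⟩
  rw [h' x]
  constructor
  · rintro ⟨w, hw⟩
    refine ⟨fun i => w (Sum.inl (.var i)), ?_⟩
    rw [h, ← sound e f w (by rw [hw]; exact hx), hw]
  · rintro ⟨a, ha⟩
    rw [h] at ha
    exact ⟨_, complete e f a hx ha⟩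

end Pool.Agent.Helper33.DF
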